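import Pool.Agent.Y474.WQ.TwoA

/-!
Project WQ, job TWO: the relation modulo a prime above two. (helper474, for helper546.)
-/

set_option autoImplicit false

namespace Pool.Agent.Y474.WQ

open Pool.Agent.Y546.WQ NumberField IsDedekindDomain

theorem exists_M (C : Type) [Field C] [NumberField C] :
    ∃ M : Ideal (𝓞 C), M.IsMaximal ∧ (2 : 𝓞 C) ∈ M := by
  have h1 : (Ideal.span {(2 : ℤ)}).IsMaximal :=
    PrincipalIdealRing.isMaximal_of_irreducible (Int.prime_two.irreducible)
  obtain ⟨M, hM, hMl⟩ := Ideal.exists_maximal_ideal_liesOver_of_isIntegral (S := 𝓞 C)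
    (Ideal.span {(2 : ℤ)})
  refine ⟨M, hM, ?_⟩
  have h2 : (2 : ℤ) ∈ M.under ℤ := by
    rw [← hMl.over]
    exact Ideal.mem_span_singleton_self _
  rw [Ideal.under_def, Ideal.mem_comap] at h2
  simpa using h2

theorem main : S_TWO := by
  intro p _ hp C _ _ c a b e n hn k hcase g hg i hrel
  have hpp : p.Prime := Fact.out
  have hp2 : p ≠ 2 := by omega
  obtain ⟨M, hM, h2M⟩ := exists_M C
  have hMbot : M ≠ ⊥ := by
    rintro rfl
    rw [Ideal.mem_bot] at h2M
    exact two_ne_zero h2M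
  let v : HeightOneSpectrum (𝓞 C) := ⟨M, hM.isPrime, hMbot⟩
  let _ : Field (𝓞 C ⧸ M) := Ideal.Quotient.field M
  let φ : 𝓞 C →+* (𝓞 C ⧸ M) := Ideal.Quotient.mk M
  have h2F : (2 : 𝓞 C ⧸ M) = 0 := by
    have : φ 2 = 0 := Ideal.Quotient.eq_zero_iff_mem.2 h2M
    rwa [map_ofNat] at this
  -- the root of unity as an integer
  let zO : 𝓞 C := ⟨c.z, c.prim.isIntegral hpp.pos⟩
  have hzO : (zO : C) = c.z := rfl
  have hzprim : IsPrimitiveRoot zO p :=
    IsPrimitiveRoot.of_map_of_injective (f := algebraMap (𝓞 C) C) c.prim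
      (RingOfIntegers.coe_injective)
  set w : 𝓞 C ⧸ M := φ zO with hwdef
  have hw : w ^ p = 1 := by rw [hwdef, ← map_pow, hzprim.pow_eq_one, map_one]
  have hpF : ((p : ℕ) : 𝓞 C ⧸ M) = 1 := by
    obtain ⟨m, hm⟩ := hpp.odd_of_ne_two hp2
    rw [hm]
    push_cast
    rw [h2F, zero_mul, zero_add]
  have hw1 : w ≠ 1 := by
    intro h
    have h1 := hzprim.geom_sum_eq_zero hpp.one_lt
    have h3 := congrArg φ h1
    rw [map_sum, map_zero] at h3
    have h4 : ∀ j ∈ Finset.range p, φ (zO ^ j) = 1 := by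
      intro j _
      rw [map_pow, ← hwdef, h, one_pow]
    rw [Finset.sum_congr rfl h4, Finset.sum_const, Finset.card_range, nsmul_one, hpF] at h3
    exact one_ne_zero h3
  -- the Frobenius
  have hchar : CharP (𝓞 C ⧸ M) 2 := by
    refine CharTwo.of_one_ne_zero_of_two_eq_zero one_ne_zero h2F
  have hfactp : Fact (Nat.Prime 2) := ⟨Nat.prime_two⟩
  have hF : ∀ x : 𝓞 C ⧸ M, x ^ 2 ^ (p - 1) = x := by
    intro x
    obtain ⟨y, rfl⟩ := Ideal.Quotient.mk_surjective x
    obtain ⟨f, hf⟩ := c.gen (y : C) y.2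
    have h1 : y = Polynomial.aeval zO f := by
      apply RingOfIntegers.coe_injective
      have := Polynomial.aeval_algebraMap_apply C zO f
      exact hf.trans this
    have h3 : ∀ ψ : 𝓞 C →+* (𝓞 C ⧸ M), ψ (Polynomial.aeval zO f) =
        Polynomial.eval₂ (Int.castRingHom _) (ψ zO) f := by
      intro ψ
      rw [Polynomial.aeval_def, Polynomial.hom_eval₂]
      congr 1
      exact RingHom.ext_int _ _
    have h4 := h3 φ
    have h5 := h3 ((iterateFrobenius (𝓞 C ⧸ M) 2 (p - 1)).comp φ)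
    rw [RingHom.comp_apply, RingHom.comp_apply, iterateFrobenius_def, iterateFrobenius_def] at h5
    have h6 : (φ zO) ^ 2 ^ (p - 1) = φ zO := by
      have e1 : 2 ^ (p - 1) % p = 1 := by
        have e2 : ((2 ^ (p - 1) : ℕ) : ZMod p) = ((1 : ℕ) : ZMod p) := by
          push_cast
          refine ZMod.pow_card_sub_one_eq_one ?_
          have : ((2 : ℕ) : ZMod p) ≠ 0 := by
            rw [Ne, ZMod.natCast_eq_zero_iff]
            intro hd
            have := Nat.le_of_dvd (by norm_num) hd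
            omega
          exact_mod_cast this
        rw [ZMod.natCast_eq_natCast_iff] at e2
        have e3 : 2 ^ (p - 1) % p = 1 % p := e2
        rw [e3, Nat.mod_eq_of_lt hpp.one_lt]
      rw [pow_eq_pow_mod _ hw, e1, pow_one]
    rw [h6, ← h4] at h5
    have h7 : Ideal.Quotient.mk M y = φ (Polynomial.aeval zO f) := by rw [← h1]
    rw [h7]
    exact h5
  -- coprime representation of `g`
  have hab : ∃ al be : 𝓞 C, ¬ (φ al = 0 ∧ φ be = 0) ∧ g * (be : C) = (al : C) := by
    obtain ⟨x, d, h | h⟩ := v.exists_primeCompl_mul_eq_or_mul_eq g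
    · refine ⟨x, d, fun hh => ?_, h⟩
      exact d.2 (Ideal.Quotient.eq_zero_iff_mem.1 hh.2)
    · refine ⟨d, x, fun hh => ?_, h⟩
      exact d.2 (Ideal.Quotient.eq_zero_iff_mem.1 hh.1)
  obtain ⟨al, be, h0, hgab⟩ := hab
  -- the relation in the integers
  have hn0 : (n : C) ≠ 0 := by
    intro h
    have h1 : n = 0 := by exact_mod_cast h
    rw [h1] at hn
    exact absurd hn (by decide)
  have hR : (∏ t ∈ half p, ((a : 𝓞 C) + b * zO ^ ((t⁻¹ : (ZMod p)ˣ) : ZMod p).val +
      e * (zO ^ ((t⁻¹ : (ZMod p)ˣ) : ZMod p).val) ^ 2)) * be ^ p =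
      (n : 𝓞 C) ^ (half p).card * (zO ^ i * al ^ p) := by
    apply RingOfIntegers.coe_injective
    have e1 : th c (((a : C) + b * c.z + e * c.z ^ 2) / n) =
        (∏ t ∈ half p, ((a : C) + b * c.z ^ ((t⁻¹ : (ZMod p)ˣ) : ZMod p).val +
          e * (c.z ^ ((t⁻¹ : (ZMod p)ˣ) : ZMod p).val) ^ 2)) / (n : C) ^ (half p).card := by
      unfold th
      rw [← Finset.prod_const, ← Finset.prod_div_distrib]
      refine Finset.prod_congr rfl fun t _ => ?_
      rw [map_div₀, map_add, map_add, map_mul, map_mul, map_pow, map_intCast, map_intCast,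
        map_intCast, map_intCast, c.σ_z]
    rw [e1, div_eq_iff (pow_ne_zero _ hn0)] at hrel
    show (algebraMap (𝓞 C) C) _ = (algebraMap (𝓞 C) C) _
    have e2 : (algebraMap (𝓞 C) C) zO = c.z := rfl
    simp only [map_mul, map_pow, map_prod, map_add, map_intCast, e2]
    rw [hrel]
    have e3 : (algebraMap (𝓞 C) C) al = g * (algebraMap (𝓞 C) C) be := hgab.symm
    rw [e3, mul_pow]
    ring
  have hRF := congrArg φ hR
  simp only [map_mul, map_pow, map_prod, map_add, map_intCast] at hRF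
  have hnF : ((n : ℤ) : 𝓞 C ⧸ M) = 1 := by
    obtain ⟨m, rfl⟩ := hn
    push_cast
    rw [h2F, zero_mul, zero_add]
  rw [hnF, one_pow, one_mul] at hRF
  have hsq := sq_cases hw hw1 hp h2F a b e k hcase
  exact core hw hw1 hF k i h0 hsq hRF

end Pool.Agent.Y474.WQ
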