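import Pool.Agent.Y546.WQ.Stm

/-!
Project WQ, job TWO, part A: computations in a field of characteristic two.
(helper474, for helper546.)
-/

set_option autoImplicit false

namespace Pool.Agent.Y474.WQ

open Pool.Agent.Y546.WQ

section core

variable {p : ℕ} [Fact p.Prime] {F : Type} [Field F]

/-- the power `w ^ x` for `x` modulo `p` -/
def ze (w : F) (x : ZMod p) : F := w ^ x.val

theorem ze_add {w : F} (hw : w ^ p = 1) (x y : ZMod p) : ze w (x + y) = ze w x * ze w y := by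
  unfold ze
  rw [ZMod.val_add, ← pow_add, ← pow_eq_pow_mod _ hw]

theorem ze_zero (w : F) : ze w (0 : ZMod p) = 1 := by
  unfold ze
  rw [ZMod.val_zero, pow_zero]

theorem ze_natmul {w : F} (hw : w ^ p = 1) (m : ℕ) (x : ZMod p) :
    ze w ((m : ZMod p) * x) = ze w x ^ m := by
  induction m with
  | zero => rw [Nat.cast_zero, zero_mul, ze_zero, pow_zero]
  | succ m ih => rw [Nat.cast_succ, add_mul, one_mul, ze_add hw, ih, pow_succ]

theorem ze_ne_zero {w : F} (hw : w ^ p = 1) (x : ZMod p) : ze w x ≠ 0 := by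
  unfold ze
  apply pow_ne_zero
  rintro rfl
  rw [zero_pow (Fact.out : p.Prime).ne_zero] at hw
  exact zero_ne_one hw

theorem ze_neg {w : F} (hw : w ^ p = 1) (x : ZMod p) : ze w (-x) = (ze w x)⁻¹ := by
  have h := ze_add hw (-x) x
  rw [neg_add_cancel, ze_zero] at h
  exact eq_inv_of_mul_eq_one_left h.symm

theorem ze_ne_one {w : F} (hw : w ^ p = 1) (hw1 : w ≠ 1) {x : ZMod p} (hx : x ≠ 0) :
    ze w x ≠ 1 := by
  intro h
  unfold ze at h
  have h1 : orderOf w = p := orderOf_eq_prime hw hw1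
  have h2 := orderOf_dvd_of_pow_eq_one h
  rw [h1] at h2
  have h3 := ZMod.val_lt x
  have h4 : x.val = 0 := Nat.eq_zero_of_dvd_of_lt h2 h3
  exact hx ((ZMod.val_eq_zero x).1 h4)

theorem all_prod {w : F} (hw : w ^ p = 1) (hw1 : w ≠ 1) {m : ℕ} (hm : (m : ZMod p) ≠ 0)
    (R : F → F) (hR : ∀ y, (1 - y) * R y = 1 - y ^ m) :
    ∏ u : (ZMod p)ˣ, R (ze w (u : ZMod p)) = 1 := by
  have h0 : ∏ u : (ZMod p)ˣ, (1 - ze w (u : ZMod p)) ≠ 0 := by
    refine Finset.prod_ne_zero_iff.2 fun u _ => ?_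
    rw [sub_ne_zero]
    exact (ze_ne_one hw hw1 u.ne_zero).symm
  have h1 : (∏ u : (ZMod p)ˣ, (1 - ze w (u : ZMod p))) * ∏ u : (ZMod p)ˣ, R (ze w (u : ZMod p)) =
      ∏ u : (ZMod p)ˣ, (1 - ze w (u : ZMod p)) := by
    rw [← Finset.prod_mul_distrib]
    have h2 : ∀ u : (ZMod p)ˣ, (1 - ze w (u : ZMod p)) * R (ze w (u : ZMod p)) =
        1 - ze w (((Units.mk0 (m : ZMod p) hm) * u : (ZMod p)ˣ) : ZMod p) := by
      intro u
      rw [hR, Units.val_mul, Units.val_mk0, ze_natmul hw]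
    rw [Finset.prod_congr rfl fun u _ => h2 u]
    exact Equiv.prod_comp (Equiv.mulLeft (Units.mk0 (m : ZMod p) hm))
      (fun u : (ZMod p)ˣ => 1 - ze w (u : ZMod p))
  exact mul_left_cancel₀ h0 (by rw [h1, mul_one])

theorem mem_half {t : (ZMod p)ˣ} : t ∈ half p ↔ p < 2 * (t : ZMod p).val := by
  unfold half
  rw [Finset.mem_filter]
  simp

theorem neg_half (hp : p ≠ 2) (t : (ZMod p)ˣ) : -t ∈ half p ↔ t ∉ half p := by
  rw [mem_half, mem_half, Units.val_neg, ZMod.neg_val, if_neg t.ne_zero]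
  have h1 := ZMod.val_lt (t : ZMod p)
  have h2 : Odd p := (Fact.out : p.Prime).odd_of_ne_two hp
  obtain ⟨k, hk⟩ := h2
  omega

theorem half_prod (hp : p ≠ 2) (f : (ZMod p)ˣ → F) :
    ∏ u : (ZMod p)ˣ, f u = ∏ t ∈ half p, f t⁻¹ * f (-t⁻¹) := by
  rw [← Equiv.prod_comp (Equiv.inv (ZMod p)ˣ) f,
    ← Finset.prod_filter_mul_prod_filter_not Finset.univ (fun u => u ∈ half p),
    Finset.prod_mul_distrib]
  congr 1
  · rw [Finset.filter_mem_eq_inter, Finset.univ_inter]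
    rfl
  · refine Finset.prod_nbij' (fun u => -u) (fun u => -u) ?_ ?_ ?_ ?_ ?_
    · intro u hu
      rw [Finset.mem_filter] at hu
      exact (neg_half hp u).2 hu.2
    · intro u hu
      rw [Finset.mem_filter]
      refine ⟨Finset.mem_univ _, fun h => ?_⟩
      exact (neg_half hp u).1 h hu
    · intro u _
      exact neg_neg u
    · intro u _
      exact neg_neg u
    · intro u _
      show f u⁻¹ = f (-(-u)⁻¹)
      rw [← inv_neg, neg_neg]

theorem half_sq {w : F} (hw : w ^ p = 1) (hw1 : w ≠ 1) (hp : p ≠ 2) {m r : ℕ}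
    (hm : (m : ZMod p) ≠ 0) (R : F → F) (hR : ∀ y, (1 - y) * R y = 1 - y ^ m)
    (hR' : ∀ y : F, y ≠ 0 → R y⁻¹ * y ^ r = R y) :
    (∏ t ∈ half p, R (ze w ((t⁻¹ : (ZMod p)ˣ) : ZMod p))) ^ 2 =
      (∏ t ∈ half p, ze w ((t⁻¹ : (ZMod p)ˣ) : ZMod p)) ^ r := by
  have h1 := all_prod hw hw1 hm R hR
  rw [half_prod hp] at h1
  rw [← mul_one ((∏ t ∈ half p, ze w ((t⁻¹ : (ZMod p)ˣ) : ZMod p)) ^ r), ← h1,
    ← Finset.prod_pow, ← Finset.prod_pow, ← Finset.prod_mul_distrib]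
  refine Finset.prod_congr rfl fun t _ => ?_
  rw [Units.val_neg, ze_neg hw]
  have h2 := hR' _ (ze_ne_zero hw ((t⁻¹ : (ZMod p)ˣ) : ZMod p))
  calc R (ze w ((t⁻¹ : (ZMod p)ˣ) : ZMod p)) ^ 2 =
        R (ze w ((t⁻¹ : (ZMod p)ˣ) : ZMod p)) * R (ze w ((t⁻¹ : (ZMod p)ˣ) : ZMod p)) := by ring
    _ = R (ze w ((t⁻¹ : (ZMod p)ˣ) : ZMod p)) *
        (R (ze w ((t⁻¹ : (ZMod p)ˣ) : ZMod p))⁻¹ * ze w ((t⁻¹ : (ZMod p)ˣ) : ZMod p) ^ r) := by
        rw [h2]
    _ = _ := by ring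

/-- the sum of the representatives of the inverses -/
def SS (p : ℕ) [Fact p.Prime] : ℕ := ∑ t ∈ half p, ((t⁻¹ : (ZMod p)ˣ) : ZMod p).val

theorem SS_cast : ((SS p : ℕ) : ZMod p) = hs p := by
  unfold SS hs
  push_cast
  refine Finset.sum_congr rfl fun t _ => ?_
  rw [ZMod.natCast_val, ZMod.cast_id', id]

theorem half_ze (w : F) : ∏ t ∈ half p, ze w ((t⁻¹ : (ZMod p)ˣ) : ZMod p) = w ^ SS p := by
  unfold ze SS
  rw [Finset.prod_pow_eq_pow_sum]

/-- the reduction of `a + b X + e X²` modulo two, in the four cases -/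
theorem sq_cases {w : F} (hw : w ^ p = 1) (hw1 : w ≠ 1) (hp : 5 ≤ p) (h2 : (2 : F) = 0)
    (a b e : ℤ) (k : ℕ)
    (h : (Even a ∧ Even b ∧ Odd e ∧ k = 4) ∨ (Even a ∧ Odd b ∧ Even e ∧ k = 2) ∨
      (Even a ∧ Odd b ∧ Odd e ∧ k = 3) ∨ (Odd a ∧ Odd b ∧ Odd e ∧ k = 2)) :
    (∏ t ∈ half p, ((a : F) + b * ze w ((t⁻¹ : (ZMod p)ˣ) : ZMod p) +
      e * ze w ((t⁻¹ : (ZMod p)ˣ) : ZMod p) ^ 2)) ^ 2 = w ^ (k * SS p) := by
  have hev : ∀ n : ℤ, Even n → (n : F) = 0 := by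
    rintro n ⟨m, rfl⟩
    push_cast
    rw [← two_mul, h2, zero_mul]
  have hod : ∀ n : ℤ, Odd n → (n : F) = 1 := by
    rintro n ⟨m, rfl⟩
    push_cast
    rw [h2, zero_mul, zero_add]
  have hp2 : p ≠ 2 := by omega
  have hm2 : ((2 : ℕ) : ZMod p) ≠ 0 := by
    rw [Ne, ZMod.natCast_eq_zero_iff]
    intro hd
    have := Nat.le_of_dvd (by norm_num) hd
    omega
  have hm3 : ((3 : ℕ) : ZMod p) ≠ 0 := by
    rw [Ne, ZMod.natCast_eq_zero_iff]
    intro hd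
    have := Nat.le_of_dvd (by norm_num) hd
    omega
  have hneg : ∀ y : F, -y = y := by
    intro y
    rw [neg_eq_iff_add_eq_zero, ← two_mul, h2, zero_mul]
  have hB1 : (∏ t ∈ half p, (1 + ze w ((t⁻¹ : (ZMod p)ˣ) : ZMod p))) ^ 2 =
      (∏ t ∈ half p, ze w ((t⁻¹ : (ZMod p)ˣ) : ZMod p)) ^ 1 := by
    refine half_sq hw hw1 hp2 hm2 (fun y => 1 + y) (fun y => by ring) (fun y hy => ?_)
    show (1 + y⁻¹) * y ^ 1 = 1 + y
    field_simp
    ring
  have hB2 : (∏ t ∈ half p, (1 + ze w ((t⁻¹ : (ZMod p)ˣ) : ZMod p) +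
      ze w ((t⁻¹ : (ZMod p)ˣ) : ZMod p) ^ 2)) ^ 2 =
      (∏ t ∈ half p, ze w ((t⁻¹ : (ZMod p)ˣ) : ZMod p)) ^ 2 := by
    refine half_sq hw hw1 hp2 hm3 (fun y => 1 + y + y ^ 2) (fun y => by ring) (fun y hy => ?_)
    show (1 + y⁻¹ + y⁻¹ ^ 2) * y ^ 2 = 1 + y + y ^ 2
    field_simp
    ring
  rcases h with ⟨ha, hb, he, rfl⟩ | ⟨ha, hb, he, rfl⟩ | ⟨ha, hb, he, rfl⟩ | ⟨ha, hb, he, rfl⟩
  · simp only [hev a ha, hev b hb, hod e he, zero_mul, one_mul, zero_add]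
    rw [Finset.prod_pow, half_ze, ← pow_mul, ← pow_mul]
    congr 1
    ring
  · simp only [hev a ha, hod b hb, hev e he, zero_mul, one_mul, zero_add, add_zero]
    rw [half_ze, ← pow_mul]
    congr 1
    ring
  · simp only [hev a ha, hod b hb, hod e he, one_mul, zero_add]
    have h3 : ∀ y : F, y + y ^ 2 = y * (1 + y) := fun y => by ring
    simp only [h3]
    rw [Finset.prod_mul_distrib, mul_pow, hB1, half_ze, ← pow_mul, ← pow_mul, ← pow_add]
    congr 1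
    ring
  · simp only [hod a ha, hod b hb, hod e he, one_mul]
    rw [hB2, half_ze, ← pow_mul]
    congr 1
    ring

/-- the conclusion in the residue field -/
theorem core {w : F} (hw : w ^ p = 1) (hw1 : w ≠ 1)
    (hF : ∀ x : F, x ^ 2 ^ (p - 1) = x) (k i : ℕ) {Pi0 al be : F} (h0 : ¬ (al = 0 ∧ be = 0))
    (hpi : Pi0 ^ 2 = w ^ (k * SS p)) (hrel : Pi0 * be ^ p = w ^ i * al ^ p) :
    2 * (i : ZMod p) = k * hs p ∨ p ^ 2 ∣ 2 ^ (p - 1) - 1 := by
  have hpp : p.Prime := Fact.out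
  have hp0 : p ≠ 0 := hpp.ne_zero
  have hw0 : w ≠ 0 := by
    rintro rfl
    rw [zero_pow hp0] at hw
    exact zero_ne_one hw
  have hpi0 : Pi0 ≠ 0 := by
    rintro rfl
    rw [zero_pow two_ne_zero] at hpi
    exact pow_ne_zero _ hw0 hpi.symm
  have hal : al ≠ 0 := by
    intro h
    rw [h, zero_pow hp0, mul_zero] at hrel
    have h1 : be ^ p = 0 := (mul_eq_zero.1 hrel).resolve_left hpi0
    exact h0 ⟨h, pow_eq_zero_iff hp0 |>.1 h1⟩
  have hbe : be ≠ 0 := by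
    intro h
    rw [h, zero_pow hp0, mul_zero] at hrel
    have h1 : al ^ p = 0 := (mul_eq_zero.1 hrel.symm).resolve_left (pow_ne_zero _ hw0)
    exact hal (pow_eq_zero_iff hp0 |>.1 h1)
  by_cases hk : 2 * (i : ZMod p) = k * hs p
  · exact Or.inl hk
  right
  set v : F := (al / be) ^ 2 with hv
  have hv0 : v ≠ 0 := pow_ne_zero _ (div_ne_zero hal hbe)
  have h1 : w ^ (k * SS p) = w ^ (2 * i) * v ^ p := by
    have h2 : Pi0 = w ^ i * (al / be) ^ p := by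
      rw [div_pow]
      field_simp
      exact hrel
    rw [← hpi, h2, hv, mul_pow, ← pow_mul, ← pow_mul, ← pow_mul]
    congr 2 <;> ring
  -- an exponent which is a unit modulo `p`
  set Δ : ZMod p := k * hs p - 2 * (i : ZMod p) with hΔ
  have hΔ0 : Δ ≠ 0 := sub_ne_zero.2 (Ne.symm hk)
  have h3 : ze w Δ = v ^ p := by
    have e1 : Δ + ((2 * i : ℕ) : ZMod p) = ((k * SS p : ℕ) : ZMod p) := by
      rw [hΔ]
      push_cast
      rw [SS_cast]
      ring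
    have e2 : ∀ m : ℕ, ze w ((m : ℕ) : ZMod p) = w ^ m := by
      intro m
      have := ze_natmul hw m (1 : ZMod p)
      rw [mul_one] at this
      rw [this]
      unfold ze
      have hfact : Fact (1 < p) := ⟨hpp.one_lt⟩
      rw [ZMod.val_one, pow_one]
    have e3 := ze_add hw Δ ((2 * i : ℕ) : ZMod p)
    rw [e1, e2, e2, h1, mul_comm] at e3
    exact (mul_right_cancel₀ (pow_ne_zero _ hw0) e3).symm
  set m : ℕ := (Δ⁻¹).val with hm
  have h4 : (v ^ m) ^ p = w := by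
    have e1 := ze_natmul hw m Δ
    have e2 : ((m : ℕ) : ZMod p) * Δ = 1 := by
      rw [hm, ZMod.natCast_val, ZMod.cast_id', id, inv_mul_cancel₀ hΔ0]
    have hfact : Fact (1 < p) := ⟨hpp.one_lt⟩
    rw [e2, h3] at e1
    unfold ze at e1
    rw [ZMod.val_one, pow_one] at e1
    rw [pow_right_comm]
    exact e1.symm
  have h5 : orderOf (v ^ m) = p ^ 2 := by
    refine orderOf_eq_prime_pow (n := 1) ?_ ?_
    · rw [pow_one, h4]
      exact hw1
    · rw [pow_succ, pow_one, pow_mul, h4, hw]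
  rw [← h5]
  refine orderOf_dvd_of_pow_eq_one ?_
  have h6 := hF (v ^ m)
  have h7 : (v ^ m) ^ (2 ^ (p - 1) - 1) * v ^ m = v ^ m := by
    rw [← pow_succ, Nat.sub_add_cancel Nat.one_le_two_pow]
    exact h6
  exact mul_right_cancel₀ (pow_ne_zero m hv0) (by rw [h7, one_mul])

end core

end Pool.Agent.Y474.WQ
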